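import Pool.Agent.MP485c8a.P5

set_option autoImplicit false

namespace Pool.Agent.Results.MP_485c8a_al.GeneralLinear

open Module Pool.Agent.PC

/-- The conclusion over a fixed field. -/
def ConclGL (F : Type) [Field F] : Prop :=
  ∀ (n : ℕ), 2 < n → ∀ A B : Matrix (Fin n) (Fin n) F, A.det ≠ 0 →
    (¬ ∃ c : F, A = Matrix.scalar (Fin n) c) → (¬ ∃ c : F, B = Matrix.scalar (Fin n) c) →
    B.det = A.det ^ n →
    ∃ g : Fin n → Matrix.GeneralLinearGroup (Fin n) F,
      B = (List.ofFn (fun i =>
          ((g i : Matrix.GeneralLinearGroup (Fin n) F) : Matrix (Fin n) (Fin n) F) * A *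
            (((g i)⁻¹ : Matrix.GeneralLinearGroup (Fin n) F) : Matrix (Fin n) (Fin n) F))).prod

theorem not_scal {F : Type} [Field F] (n : ℕ) (A : Matrix (Fin n) (Fin n) F)
    (hA : ¬ ∃ c : F, A = Matrix.scalar (Fin n) c) : ¬ Scal (Matrix.toLin' A) := by
  rintro ⟨c, hc⟩
  apply hA
  refine ⟨c, ?_⟩
  ext i j
  have h := congrFun (hc (Pi.single j 1)) i
  rw [Matrix.toLin'_apply, Matrix.mulVec_single_one] at h
  have h1 : A.col j i = A i j := rfl
  rw [h1] at h
  rw [h, Matrix.scalar_apply, Matrix.diagonal_apply, Pi.smul_apply, Pi.single_apply, smul_eq_mul]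
  by_cases hij : i = j
  · rw [if_pos hij, if_pos hij, mul_one]
  · rw [if_neg hij, if_neg hij, mul_zero]

theorem matrix_form {F : Type} [Field F] (hE : ExcGood F) : ConclGL F := by
  intro n hn A B hA0 hA hB hdet
  have hdetA : LinearMap.det (Matrix.toLin' A) = A.det := LinearMap.det_toLin' _
  have hdetB : LinearMap.det (Matrix.toLin' B) = B.det := LinearMap.det_toLin' _
  have hsA := not_scal n A hA
  have hsB := not_scal n B hB
  have hfin : finrank F (Fin n → F) = n := by rw [Module.finrank_fin_fun]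
  have hRep : Rep (Matrix.toLin' A) (Matrix.toLin' B) n := by
    by_cases hbig : Big (Matrix.toLin' A)
    · obtain ⟨l, h1, h2, h3, _⟩ := Pool.Agent.PC.H1.main_big hE n (by omega) (Fin n → F) hfin
        (Matrix.toLin' A) (Matrix.toLin' B)
        (by rw [hdetA]; exact hA0) hbig hsB (by rw [hdetA, hdetB, hdet])
      exact ⟨l, h1, h2, h3⟩
    · have h := Pool.Agent.PC.C4.rep_of_not_big (by rw [hfin]; omega)
        (Matrix.toLin' A) (Matrix.toLin' B)
        (by rw [hdetA]; exact hA0) hsA hbig hsB (by rw [hdetA, hdetB, hfin, hdet])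
      rwa [hfin] at h
  obtain ⟨l, hlen, hsim, hprod⟩ := hRep
  have hg : ∀ i : Fin n, ∃ g : Matrix.GeneralLinearGroup (Fin n) F,
      LinearMap.toMatrixAlgEquiv' (l[(i : ℕ)]'(by rw [hlen]; exact i.2)) =
      ((g : Matrix.GeneralLinearGroup (Fin n) F) : Matrix (Fin n) (Fin n) F) * A *
        ((g⁻¹ : Matrix.GeneralLinearGroup (Fin n) F) : Matrix (Fin n) (Fin n) F) := by
    intro i
    exact Pool.Agent.PC.H2.sim_matrix_8217 n _ _ (hsim _ (List.getElem_mem _))
  choose g hg using hg
  refine ⟨g, ?_⟩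
  have hlist : (List.ofFn (fun i =>
          ((g i : Matrix.GeneralLinearGroup (Fin n) F) : Matrix (Fin n) (Fin n) F) * A *
            (((g i)⁻¹ : Matrix.GeneralLinearGroup (Fin n) F) : Matrix (Fin n) (Fin n) F))) =
      l.map LinearMap.toMatrixAlgEquiv' := by
    apply List.ext_getElem
    · rw [List.length_ofFn, List.length_map, hlen]
    · intro k hk1 hk2
      rw [List.getElem_ofFn, List.getElem_map, ← hg]
  rw [hlist, ← map_list_prod, hprod]
  exact (LinearMap.toMatrix'_toLin' _).symm

theorem transport {F K : Type} [Field F] [Field K] (e : F ≃+* K) (h : ConclGL K) : ConclGL F := by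
  intro n hn A B hA0 hA hB hdet
  have hback : ∀ M : Matrix (Fin n) (Fin n) F,
      (e.symm : K →+* F).mapMatrix ((e : F →+* K).mapMatrix M) = M := by
    intro M; ext i j; simp
  have hns : ∀ M : Matrix (Fin n) (Fin n) F, (¬ ∃ c : F, M = Matrix.scalar (Fin n) c) →
      ¬ ∃ c : K, (e : F →+* K).mapMatrix M = Matrix.scalar (Fin n) c := by
    intro M hM ⟨c, hc⟩
    apply hM
    refine ⟨e.symm c, ?_⟩
    rw [← hback M, hc]
    ext i j
    by_cases hij : i = j
    · subst hij; simp
    · simp [hij]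
  have hd : ∀ M : Matrix (Fin n) (Fin n) F, ((e : F →+* K).mapMatrix M).det = e M.det := by
    intro M
    exact ((e : F →+* K).map_det M).symm
  obtain ⟨g, hg⟩ := h n hn ((e : F →+* K).mapMatrix A) ((e : F →+* K).mapMatrix B)
    (by rw [hd]; simpa using hA0) (hns A hA) (hns B hB) (by rw [hd, hd, hdet, map_pow])
  refine ⟨fun i => Matrix.GeneralLinearGroup.map (e.symm : K →+* F) (g i), ?_⟩
  have h1 := congrArg (fun M : Matrix (Fin n) (Fin n) K => (e.symm : K →+* F).mapMatrix M) hg
  simp only [map_list_prod, List.map_ofFn] at h1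
  rw [hback] at h1
  rw [h1]
  congr 2
  funext i
  simp only [Function.comp_apply, map_mul, hback]
  congr 1

/-- For every field `F`, every `n > 2`, every invertible non-scalar `A` and every non-scalar `B`
with `det B = (det A) ^ n`, the matrix `B` is a product of `n` matrices similar to `A`. -/
theorem result :
    ∀ (F : Type) [Field F] (n : ℕ), 2 < n → ∀ A B : Matrix (Fin n) (Fin n) F, A.det ≠ 0 →
      (¬ ∃ c : F, A = Matrix.scalar (Fin n) c) → (¬ ∃ c : F, B = Matrix.scalar (Fin n) c) →
      B.det = A.det ^ n →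
      ∃ g : Fin n → Matrix.GeneralLinearGroup (Fin n) F,
        B = (List.ofFn (fun i =>
          ((g i : Matrix.GeneralLinearGroup (Fin n) F) : Matrix (Fin n) (Fin n) F) * A *
            (((g i)⁻¹ : Matrix.GeneralLinearGroup (Fin n) F) : Matrix (Fin n) (Fin n) F))).prod := by
  intro F _ n hn A B hA0 hA hB hdet
  by_cases h : ∃ S : Finset F, S.card = 4
  · exact matrix_form (Pool.Agent.PC.ExcSmall.excGood_large h) n hn A B hA0 hA hB hdet
  · rcases Pool.Agent.PC.H3.small_field h with e | e
    · obtain ⟨e⟩ := e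
      exact transport e (matrix_form Pool.Agent.PC.ExcSmall.excGood_2) n hn A B hA0 hA hB hdet
    · obtain ⟨e⟩ := e
      exact transport e (matrix_form Pool.Agent.PC.ExcSmall.excGood_3) n hn A B hA0 hA hB hdet

end Pool.Agent.Results.MP_485c8a_al.GeneralLinear
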